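import Pool.Agent.helper48.AGR.Spec

/-!
# MP_def0df_al, row A2: the cyclic step
-/

set_option autoImplicit false

namespace Pool.Agent.AGR

open Monoid Function

/-- index type of the new letters -/
abbrev A2_J (S : Sys) : Type := {u : S.X // Cen S.w u} × (Σ k : ℕ, Fin (k + 1))

/-- the permutation of the new letters -/
def A2_π (S : Sys) : Equiv.Perm (A2_J S) :=
  Equiv.prodCongr (Equiv.refl _) (Equiv.sigmaCongrRight fun k => Equiv.addRight (1 : Fin (k + 1)))

/-- the factors -/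
def A2_h (S : Sys) (j : A2_J S) : S.X := if j.2.2 = Fin.last j.2.1 then (j.1.1)⁻¹ else 1

theorem A2_π_apply (S : Sys) (u : {u : S.X // Cen S.w u}) (k : ℕ) (i : Fin (k + 1)) :
    A2_π S (u, ⟨k, i⟩) = (u, ⟨k, i + 1⟩) := rfl

theorem A2_cen (S : Sys) (j : A2_J S) : Cen S.w (A2_h S j) := by
  intro a
  unfold A2_h
  split_ifs
  · exact (j.1.2 a).inv_left
  · exact Commute.one_left _

theorem A2_countable_freeGroup (J : Type) [Countable J] : Countable (FreeGroup J) := by
  unfold FreeGroup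
  infer_instance

theorem A2_g_injective {X : Type} [Group X] (w : Vt →* X) (hw : Injective w) (J : Type) :
    Injective (W.g : X →* W w J) := by
  refine inl_injective hw ?_
  intro a b h
  exact (Prod.mk.inj h).1

theorem A2 (hFA : FA_stmt) (hVGW : VGW_stmt) (hCNT : CNT_stmt) (hPM : PM_stmt) : A2_stmt := by
  intro S
  have hvinj : Injective S.v := by
    intro a b h
    refine S.vg.inj ?_
    change S.p (S.v a) = S.p (S.v b)
    rw [h]
  have hwv : ∀ a, S.p (S.v a) = S.w a := fun _ => rfl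
  have hwq : ∀ a, S.q (S.v a) = S.w a := fun a => (S.hv a).symm
  -- the index map
  have hs : Injective (Sum.swap : A2_J S ⊕ ℕ → ℕ ⊕ A2_J S) :=
    (Equiv.sumComm (A2_J S) ℕ).injective
  obtain ⟨P, hP, Pg, Py, PF⟩ := hFA S.Γ S.X S.v S.w S.p ℕ (A2_J S) (A2_J S) ℕ S.e hvinj S.hp hwv
    S.fe Sum.swap hs (MonoidHom.id _) (fun _ _ h => h) (fun _ => rfl)
  obtain ⟨F, hF, Fg, Fy⟩ := hPM S.X S.w (A2_J S) (A2_π S) (A2_h S) (A2_cen S)
  obtain ⟨Q, hQ, Qg, Qy, QF⟩ := hFA S.Γ S.X S.v S.w S.q ℕ (A2_J S) (A2_J S) ℕ S.f hvinj S.hq hwq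
    S.ff Sum.swap hs F hF Fg
  have Py' : ∀ j, P (W.y j) = W.y j := Py
  have Qy' : ∀ j, Q (W.y j) = W.g (A2_h S j) * W.y (A2_π S j) := fun j => (Qy j).trans (Fy j)
  have : Countable (FreeGroup (A2_J S)) := A2_countable_freeGroup _
  have hcX : Countable (W S.w (A2_J S)) := by
    have : Countable Vt := inferInstanceAs (Countable ℚ)
    exact hCNT S.X (Vt × FreeGroup (A2_J S)) Vt S.w (MonoidHom.inl Vt (FreeGroup (A2_J S)))
  have hVG : VG (P.comp ((W.g : S.Γ →* W S.v (A2_J S)).comp S.v)) := by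
    have h1 := hVGW S.X S.w (A2_J S) S.vg
    have h2 : P.comp ((W.g : S.Γ →* W S.v (A2_J S)).comp S.v) =
        (W.g : S.X →* W S.w (A2_J S)).comp S.w := by
      ext a
      exact Pg (S.v a)
    rw [h2]
    exact h1
  let T : Sys :=
    { X := W S.w (A2_J S)
      Γ := W S.v (A2_J S)
      cX := hcX
      v := (W.g : S.Γ →* W S.v (A2_J S)).comp S.v
      p := P
      q := Q
      hp := hP
      hq := hQ
      hv := by
        intro a
        change P (W.g (S.v a)) = Q (W.g (S.v a))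
        rw [Pg, Qg, S.hv]
      vg := hVG
      e := _
      f := _
      fe := PF
      ff := QF }
  let m : Mor S T :=
    { j := W.g
      c := W.g
      hj := A2_g_injective S.w S.vg.inj (A2_J S)
      jp := Pg
      jq := Qg
      jv := fun _ => rfl }
  have hTw : ∀ a, T.w a = W.g (S.w a) := fun a => Pg (S.v a)
  refine ⟨T, m, ?_, fun i => ⟨i, rfl⟩, fun i => ⟨i, Fg (S.f i)⟩⟩
  intro u hu k
  have hCy : ∀ j : A2_J S, Cen T.w (W.y j : W S.w (A2_J S)) := by
    intro j a
    rw [hTw]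
    exact (W.comm a j).symm
  have hCg : Cen T.w ((W.g u : W S.w (A2_J S))) := by
    intro a
    rw [hTw]
    exact (hu a).map (W.g : S.X →* W S.w (A2_J S))
  refine ⟨fun i => if h : i ≤ k then (W.y (⟨u, hu⟩, ⟨k, ⟨i, Nat.lt_succ_of_le h⟩⟩) : W S.w (A2_J S))
      else (W.g u)⁻¹ * W.y (⟨u, hu⟩, ⟨k, ⟨0, Nat.succ_pos k⟩⟩),
    fun i => if h : i ≤ k then (W.y (⟨u, hu⟩, ⟨k, ⟨i, Nat.lt_succ_of_le h⟩⟩) : W S.v (A2_J S))
      else 1, ?_, ?_, ?_⟩
  · intro i
    dsimp only
    split_ifs with h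
    · exact hCy _
    · intro a
      exact ((hCg a).inv_left).mul_left (hCy _ a)
  · intro i hi
    dsimp only
    rw [dif_pos hi, dif_pos hi]
    refine ⟨Py' _, ?_⟩
    refine (Qy' _).trans ?_
    rw [A2_π_apply]
    rcases Nat.lt_or_eq_of_le hi with hlt | heq
    · have h1 : i + 1 ≤ k := hlt
      rw [dif_pos h1]
      have h2 : A2_h S (⟨u, hu⟩, ⟨k, ⟨i, Nat.lt_succ_of_le hi⟩⟩) = 1 := by
        unfold A2_h
        rw [if_neg]
        intro h
        have := congrArg Fin.val h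
        simp only [Fin.val_last] at this
        omega
      rw [h2, map_one, one_mul]
      have h3 : (⟨i, Nat.lt_succ_of_le hi⟩ : Fin (k + 1)) + 1 = ⟨i + 1, Nat.lt_succ_of_le h1⟩ := by
        apply Fin.ext
        rw [Fin.val_add_one_of_lt (by
          rw [Fin.lt_def]
          simpa using hlt)]
      rw [h3]
    · subst heq
      rw [dif_neg (by omega)]
      have h2 : A2_h S (⟨u, hu⟩, ⟨i, ⟨i, Nat.lt_succ_of_le hi⟩⟩) = u⁻¹ := by
        unfold A2_h
        rw [if_pos]
        apply Fin.ext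
        simp
      have h3 : (⟨i, Nat.lt_succ_of_le hi⟩ : Fin (i + 1)) + 1 = ⟨0, Nat.succ_pos i⟩ := by
        have : (⟨i, Nat.lt_succ_of_le hi⟩ : Fin (i + 1)) = Fin.last i := by
          apply Fin.ext
          simp
        rw [this, Fin.last_add_one]
        rfl
      rw [h2, h3, map_inv]
  · dsimp only
    rw [dif_neg (by omega), dif_pos (Nat.zero_le k)]

end Pool.Agent.AGR
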